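import Pool.Agent.X223.FR.Defs

/-!
Valuations on fields of Laurent series over valued fields, and Hensel's lemma for them.
-/

set_option autoImplicit false

namespace Pool.Agent.X223.FR

open Polynomial

namespace ValuedField

variable (F : ValuedField)

theorem v_zero' : F.v 0 = ⊤ := (F.v_eq_top 0).2 rfl

theorem exists_coe {x : F.K} (hx : x ≠ 0) : ∃ γ : F.Γ, F.v x = γ := by
  have h : F.v x ≠ ⊤ := fun h => hx ((F.v_eq_top x).1 h)
  exact ⟨(F.v x).untop h, (WithTop.coe_untop _ h).symm⟩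

theorem v_one' : F.v 1 = 0 := by
  obtain ⟨γ, hγ⟩ := F.exists_coe (one_ne_zero (α := F.K))
  have h := F.v_mul 1 1
  rw [mul_one, hγ, ← WithTop.coe_add, WithTop.coe_inj] at h
  rw [hγ]
  have : γ = 0 := by simpa using h
  rw [this, WithTop.coe_zero]

theorem v_neg_one' : F.v (-1) = 0 := by
  obtain ⟨γ, hγ⟩ := F.exists_coe (x := -1) (neg_ne_zero.2 one_ne_zero)
  have h := F.v_mul (-1) (-1)
  rw [neg_mul_neg, mul_one, F.v_one', hγ, ← WithTop.coe_add, ← WithTop.coe_zero,
    WithTop.coe_inj] at h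
  rw [hγ, ← WithTop.coe_zero, WithTop.coe_inj]
  rcases lt_trichotomy γ 0 with h1 | h1 | h1
  · exact absurd h (add_neg h1 h1).ne'
  · exact h1
  · exact absurd h (add_pos h1 h1).ne

theorem v_neg' (x : F.K) : F.v (-x) = F.v x := by
  rw [← neg_one_mul, F.v_mul, F.v_neg_one', zero_add]

theorem nonneg_add {x y : F.K} (hx : 0 ≤ F.v x) (hy : 0 ≤ F.v y) : 0 ≤ F.v (x + y) :=
  (le_min hx hy).trans (F.v_add x y)

theorem pos_add {x y : F.K} (hx : 0 < F.v x) (hy : 0 < F.v y) : 0 < F.v (x + y) :=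
  (lt_min hx hy).trans_le (F.v_add x y)

theorem nonneg_mul {x y : F.K} (hx : 0 ≤ F.v x) (hy : 0 ≤ F.v y) : 0 ≤ F.v (x * y) := by
  rw [F.v_mul]
  exact add_nonneg hx hy

theorem pos_mul {x y : F.K} (hx : 0 ≤ F.v x) (hy : 0 < F.v y) : 0 < F.v (x * y) := by
  rw [F.v_mul]
  exact lt_of_lt_of_le hy (le_add_of_nonneg_left hx)

/-- The valuation ring. -/
def O : Subring F.K where
  carrier := {x | 0 ≤ F.v x}
  zero_mem' := by
    show 0 ≤ F.v 0
    rw [F.v_zero']
    exact le_top
  one_mem' := by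
    show 0 ≤ F.v 1
    rw [F.v_one']
  add_mem' := fun {x y} hx hy => F.nonneg_add hx hy
  mul_mem' := fun {x y} hx hy => F.nonneg_mul hx hy
  neg_mem' := fun {x} hx => by
    show 0 ≤ F.v (-x)
    rw [F.v_neg']
    exact hx

theorem mem_O {x : F.K} : x ∈ F.O ↔ 0 ≤ F.v x := Iff.rfl

theorem eval_mem {g : F.K[X]} (hg : ∀ i, 0 ≤ F.v (g.coeff i)) {a : F.K} (ha : 0 ≤ F.v a) :
    0 ≤ F.v (g.eval a) := by
  rw [← mem_O, eval_eq_sum]
  exact Subring.sum_mem _ fun i _ => Subring.mul_mem _ (hg i) (Subring.pow_mem _ ha i)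

theorem eval_near {g : F.K[X]} (hg : ∀ i, 0 ≤ F.v (g.coeff i)) {a b : F.K} (ha : 0 ≤ F.v a)
    (hb : 0 ≤ F.v b) (hab : 0 < F.v (b - a)) : 0 < F.v (g.eval b - g.eval a) := by
  have key : ∀ n : ℕ, 0 < F.v (b ^ n - a ^ n) := by
    intro n
    induction n with
    | zero =>
      rw [pow_zero, pow_zero, sub_self, F.v_zero']
      exact WithTop.coe_lt_top 0
    | succ n ih =>
      have : b ^ (n + 1) - a ^ (n + 1) = b ^ n * (b - a) + a * (b ^ n - a ^ n) := by ring
      rw [this]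
      exact F.pos_add (F.pos_mul (Subring.pow_mem F.O hb n) hab) (F.pos_mul ha ih)
  rw [eval_eq_sum, eval_eq_sum, Polynomial.sum, Polynomial.sum, ← Finset.sum_sub_distrib]
  refine Finset.sum_induction _ (fun x => 0 < F.v x) (fun x y hx hy => F.pos_add hx hy) ?_ ?_
  · rw [F.v_zero']
    exact WithTop.coe_lt_top 0
  · intro i _
    rw [← mul_sub]
    exact F.pos_mul (hg i) (key i)

/-- A valuation on the field of Laurent series over a valued field, whose valuation ring consists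
of the power series with constant term in the valuation ring. -/
structure Data {Γ : Type} [AddCommGroup Γ] [LinearOrder Γ]
    (v : HahnSeries ℤ F.K → WithTop Γ) : Prop where
  top : ∀ x, v x = ⊤ ↔ x = 0
  mul : ∀ x y, v (x * y) = v x + v y
  nonneg : ∀ x, 0 ≤ v x ↔ (∀ n : ℤ, n < 0 → x.coeff n = 0) ∧ 0 ≤ F.v (x.coeff 0)
  pos : ∀ x, 0 < v x ↔ (∀ n : ℤ, n < 0 → x.coeff n = 0) ∧ 0 < F.v (x.coeff 0)
  surj : ∀ γ : Γ, ∃ x, v x = γ

variable {F}

theorem exists_ps {K : Type} [Field K] {x : HahnSeries ℤ K} (hx : ∀ n : ℤ, n < 0 → x.coeff n = 0) :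
    ∃ p : PowerSeries K, HahnSeries.ofPowerSeries ℤ K p = x := by
  refine ⟨PowerSeries.mk fun n => x.coeff n, ?_⟩
  ext n
  rw [PowerSeries.coeff_coe]
  split_ifs with hn
  · rw [hx n hn]
  · rw [PowerSeries.coeff_mk]
    congr 1
    omega

theorem coeff_ps_neg {K : Type} [Field K] (p : PowerSeries K) (n : ℤ) (hn : n < 0) :
    (HahnSeries.ofPowerSeries ℤ K p).coeff n = 0 := by
  rw [PowerSeries.coeff_coe, if_pos hn]

theorem coeff_ps_zero {K : Type} [Field K] (p : PowerSeries K) :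
    (HahnSeries.ofPowerSeries ℤ K p).coeff 0 = PowerSeries.constantCoeff p := by
  rw [PowerSeries.coeff_coe, if_neg (lt_irrefl _)]
  simp

section build

variable {Γ : Type} [AddCommGroup Γ] [LinearOrder Γ] [IsOrderedAddMonoid Γ]
  {v : HahnSeries ℤ F.K → WithTop Γ}

theorem Data.inO_iff (D : F.Data v) (x : HahnSeries ℤ F.K) : 0 ≤ v x ↔
    ∃ p : PowerSeries F.K, HahnSeries.ofPowerSeries ℤ F.K p = x ∧
      0 ≤ F.v (PowerSeries.constantCoeff p) := by
  rw [D.nonneg]
  constructor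
  · rintro ⟨h1, h2⟩
    obtain ⟨p, rfl⟩ := exists_ps h1
    rw [coeff_ps_zero] at h2
    exact ⟨p, rfl, h2⟩
  · rintro ⟨p, rfl, h⟩
    refine ⟨coeff_ps_neg p, ?_⟩
    rw [coeff_ps_zero]
    exact h

theorem Data.pos_iff (D : F.Data v) (p : PowerSeries F.K) :
    0 < v (HahnSeries.ofPowerSeries ℤ F.K p) ↔ 0 < F.v (PowerSeries.constantCoeff p) := by
  rw [D.pos, coeff_ps_zero]
  exact ⟨fun h => h.2, fun h => ⟨coeff_ps_neg p, h⟩⟩

theorem Data.nonneg_iff (D : F.Data v) (p : PowerSeries F.K) :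
    0 ≤ v (HahnSeries.ofPowerSeries ℤ F.K p) ↔ 0 ≤ F.v (PowerSeries.constantCoeff p) := by
  rw [D.nonneg, coeff_ps_zero]
  exact ⟨fun h => h.2, fun h => ⟨coeff_ps_neg p, h⟩⟩

theorem Data.add (D : F.Data v) (x y : HahnSeries ℤ F.K) : min (v x) (v y) ≤ v (x + y) := by
  have key : ∀ x y : HahnSeries ℤ F.K, v x ≤ v y → v x ≤ v (x + y) := by
    intro x y hxy
    by_cases hx : x = 0
    · subst hx
      rw [zero_add]
      exact hxy
    have hx' : v x ≠ ⊤ := fun h => hx ((D.top x).1 h)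
    have h1 : v y = v x + v (y / x) := by
      rw [← D.mul, mul_div_cancel₀ _ hx]
    have h2 : 0 ≤ v (y / x) := by
      rw [h1] at hxy
      obtain ⟨γ, hγ⟩ := WithTop.ne_top_iff_exists.1 hx'
      rw [← hγ] at hxy
      rcases h : v (y / x) with _ | δ
      · exact le_top
      · rw [h] at hxy
        change ((γ : Γ) : WithTop Γ) ≤ ((γ : Γ) : WithTop Γ) + ((δ : Γ) : WithTop Γ) at hxy
        rw [← WithTop.coe_add, WithTop.coe_le_coe] at hxy
        change ((0 : Γ) : WithTop Γ) ≤ ((δ : Γ) : WithTop Γ)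
        rw [WithTop.coe_le_coe]
        exact nonneg_of_le_add_right hxy
    have h3 : 0 ≤ v (1 + y / x) := by
      obtain ⟨p, hp, hp'⟩ := (D.inO_iff _).1 h2
      rw [← hp, ← map_one (HahnSeries.ofPowerSeries ℤ F.K), ← map_add, D.nonneg_iff, map_add,
        map_one]
      refine F.nonneg_add ?_ hp'
      rw [F.v_one']
    have h4 : v (x + y) = v x + v (1 + y / x) := by
      rw [← D.mul, mul_add, mul_one, mul_div_cancel₀ _ hx]
    rw [h4]
    exact le_add_of_nonneg_right h3
  rcases le_total (v x) (v y) with h | h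
  · rw [min_eq_left h]
    exact key x y h
  · rw [min_eq_right h, add_comm]
    exact key y x h

/-- The valued field of Laurent series. -/
noncomputable def Data.toValuedField (D : F.Data v) : ValuedField := by
  classical
  exact
  { K := HahnSeries ℤ F.K
    k := F.k
    Γ := Γ
    v := v
    v_eq_top := D.top
    v_mul := D.mul
    v_add := D.add
    v_surj := D.surj
    res := fun x => if 0 ≤ v x then F.res (x.coeff 0) else 0
    res_out := fun x hx => if_neg (not_le.2 hx)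
    res_one := by
      have h1 : (1 : HahnSeries ℤ F.K) = HahnSeries.ofPowerSeries ℤ F.K 1 := (map_one _).symm
      have h2 : 0 ≤ v 1 := by
        rw [h1, D.nonneg_iff, map_one, F.v_one']
      rw [if_pos h2, h1, coeff_ps_zero, map_one, F.res_one]
    res_add := by
      intro x y hx hy
      have hxy : 0 ≤ v (x + y) := (le_min hx hy).trans (D.add x y)
      rw [if_pos hx, if_pos hy, if_pos hxy, HahnSeries.coeff_add]
      exact F.res_add _ _ ((D.nonneg x).1 hx).2 ((D.nonneg y).1 hy).2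
    res_mul := by
      intro x y hx hy
      have hxy : 0 ≤ v (x * y) := by
        rw [D.mul]
        exact add_nonneg hx hy
      rw [if_pos hx, if_pos hy, if_pos hxy]
      obtain ⟨p, rfl, hp⟩ := (D.inO_iff _).1 hx
      obtain ⟨q, rfl, hq⟩ := (D.inO_iff _).1 hy
      rw [← map_mul, coeff_ps_zero, coeff_ps_zero, coeff_ps_zero, map_mul]
      exact F.res_mul _ _ hp hq
    res_eq_zero := by
      intro x hx
      rw [if_pos hx]
      obtain ⟨p, rfl, hp⟩ := (D.inO_iff _).1 hx
      rw [D.pos_iff, coeff_ps_zero]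
      exact F.res_eq_zero _ hp
    res_surj := by
      intro a
      obtain ⟨x, hx, hxa⟩ := F.res_surj a
      have h1 : 0 ≤ v (HahnSeries.ofPowerSeries ℤ F.K (PowerSeries.C x)) := by
        rw [D.nonneg_iff, PowerSeries.constantCoeff_C]
        exact hx
      refine ⟨HahnSeries.ofPowerSeries ℤ F.K (PowerSeries.C x), h1, ?_⟩
      rw [if_pos h1, coeff_ps_zero, PowerSeries.constantCoeff_C]
      exact hxa }

theorem Data.henselian (D : F.Data v) (hF : F.Henselian) : D.toValuedField.Henselian := by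
  classical
  intro f hf hcoef a ha hfa hfa'
  change (HahnSeries ℤ F.K)[X] at f
  change ∀ i, 0 ≤ v (f.coeff i) at hcoef
  change HahnSeries ℤ F.K at a
  change 0 ≤ v a at ha
  change 0 < v (f.eval a) at hfa
  change v (f.derivative.eval a) = 0 at hfa'
  change ∃ b : HahnSeries ℤ F.K, f.eval b = 0 ∧ 0 < v (b - a)
  set φ := HahnSeries.ofPowerSeries ℤ F.K with hφ
  have hlift : f ∈ Polynomial.lifts φ := by
    rw [Polynomial.lifts_iff_coeff_lifts]
    intro i
    obtain ⟨p, hp, -⟩ := (D.inO_iff _).1 (hcoef i)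
    exact ⟨p, hp⟩
  obtain ⟨g, hg, -, hgm⟩ := Polynomial.lifts_and_natDegree_eq_and_monic hlift hf
  obtain ⟨a₁, ha₁, ha₁'⟩ := (D.inO_iff _).1 ha
  subst hg
  rw [← ha₁] at hfa hfa' ⊢
  rw [Polynomial.eval_map, Polynomial.eval₂_at_apply, D.pos_iff] at hfa
  rw [Polynomial.derivative_map, Polynomial.eval_map, Polynomial.eval₂_at_apply] at hfa'
  have hcoef' : ∀ i, 0 ≤ F.v (PowerSeries.constantCoeff (g.coeff i)) := by
    intro i
    have := hcoef i
    rw [Polynomial.coeff_map, D.nonneg_iff] at this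
    exact this
  have hder : F.v (PowerSeries.constantCoeff (g.derivative.eval a₁)) = 0 := by
    refine le_antisymm ?_ ((D.nonneg_iff _).1 hfa'.ge)
    rw [← not_lt, ← D.pos_iff, hfa']
    exact lt_irrefl _
  set ψ := (PowerSeries.constantCoeff : PowerSeries F.K →+* F.K) with hψ
  have e1 : ∀ (q : Polynomial (PowerSeries F.K)) (b : PowerSeries F.K),
      ψ (q.eval b) = (q.map ψ).eval (ψ b) := by
    intro q b
    rw [Polynomial.eval_map, Polynomial.eval₂_at_apply]
  obtain ⟨b₀, hb₀, hb₀'⟩ := hF (g.map ψ) (hgm.map ψ) (fun i => by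
    rw [Polynomial.coeff_map]
    exact hcoef' i) (ψ a₁) ha₁' (by
      rw [← e1]
      exact hfa) (by
      rw [Polynomial.derivative_map, ← e1]
      exact hder)
  have hb₀O : 0 ≤ F.v b₀ := by
    have := F.nonneg_add hb₀'.le ha₁'
    rwa [sub_add_cancel] at this
  have hcd : ∀ i, 0 ≤ F.v ((g.derivative.map ψ).coeff i) := by
    intro i
    rw [Polynomial.coeff_map, Polynomial.coeff_derivative, map_mul]
    refine F.nonneg_mul (hcoef' _) ?_
    have : ψ ((i : PowerSeries F.K) + 1) = (i : F.K) + 1 := by simp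
    rw [this, ← F.mem_O]
    exact Subring.add_mem _ (natCast_mem _ i) (Subring.one_mem _)
  have hne : (g.derivative.map ψ).eval b₀ ≠ 0 := by
    intro h0
    have h1 := F.eval_near hcd ha₁' hb₀O hb₀'
    rw [h0, zero_sub, F.v_neg', ← e1, hder] at h1
    exact lt_irrefl _ h1
  have hens : HenselianRing (PowerSeries F.K) (Ideal.span {(PowerSeries.X : PowerSeries F.K)}) :=
    inferInstance
  have hspan : ∀ p : PowerSeries F.K, p ∈ Ideal.span {(PowerSeries.X : PowerSeries F.K)} ↔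
      ψ p = 0 := by
    intro p
    rw [Ideal.mem_span_singleton, PowerSeries.X_dvd_iff]
  obtain ⟨b, hb, hb'⟩ := hens.is_henselian g hgm (PowerSeries.C b₀) (by
    rw [hspan, e1, hψ, PowerSeries.constantCoeff_C]
    exact hb₀) (by
    have hu : IsUnit (g.derivative.eval (PowerSeries.C b₀)) := by
      rw [PowerSeries.isUnit_iff_constantCoeff, ← hψ, e1, isUnit_iff_ne_zero]
      rw [hψ, PowerSeries.constantCoeff_C, ← hψ]
      exact hne
    exact hu.map _)
  refine ⟨φ b, ?_, ?_⟩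
  · rw [Polynomial.eval_map, Polynomial.eval₂_at_apply, hb.eq_zero, map_zero]
  · rw [hspan, map_sub, hψ, PowerSeries.constantCoeff_C, sub_eq_zero] at hb'
    rw [← map_sub, D.pos_iff, map_sub, hb', ← hψ]
    exact hb₀'

end build

end ValuedField

end Pool.Agent.X223.FR
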