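import Mathlib

/-!
Many-sorted first-order languages and structures, the fragments of prenex sentences with a given
number of alternating quantifier blocks, valued fields as three-sorted structures, henselian
valued fields.
-/

set_option autoImplicit false

namespace Pool.Agent.X223.FR

/-! ### Many-sorted first-order logic -/

/-- A many-sorted first-order language: a type of sorts, function symbols `Fn as s` with
arguments of the sorts in the list `as` and with values of sort `s`, and relation symbols `Rl as`
with arguments of the sorts in the list `as`. -/
structure MLang where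
  /-- the sorts -/
  Srt : Type
  /-- the function symbols -/
  Fn : List Srt → Srt → Type
  /-- the relation symbols (equality is always available) -/
  Rl : List Srt → Type

/-- Terms of the sort `s` in the variables given by the context `c` (a list of sorts). -/
inductive MLang.Term (L : MLang) (c : List L.Srt) : L.Srt → Type
  /-- the variable with index `i`, of the sort `c.get i` -/
  | var (i : Fin c.length) : MLang.Term L c (c.get i)
  /-- application of a function symbol -/
  | app {as : List L.Srt} {s : L.Srt} (f : L.Fn as s)
      (t : ∀ i : Fin as.length, MLang.Term L c (as.get i)) : MLang.Term L c s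

/-- First-order formulas in the free variables given by the context `c`. A quantifier over the
sort `s` binds the variable with index `0` of the longer context `s :: c`. -/
inductive MLang.Fml (L : MLang) : List L.Srt → Type
  /-- equality of two terms of the same sort -/
  | eq {c : List L.Srt} {s : L.Srt} (t u : L.Term c s) : MLang.Fml L c
  /-- a relation symbol applied to terms -/
  | rel {c as : List L.Srt} (R : L.Rl as) (t : ∀ i : Fin as.length, L.Term c (as.get i)) :
      MLang.Fml L c
  /-- falsity -/
  | falsum {c : List L.Srt} : MLang.Fml L c
  /-- negation -/
  | not {c : List L.Srt} (φ : MLang.Fml L c) : MLang.Fml L c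
  /-- conjunction -/
  | and {c : List L.Srt} (φ ψ : MLang.Fml L c) : MLang.Fml L c
  /-- disjunction -/
  | or {c : List L.Srt} (φ ψ : MLang.Fml L c) : MLang.Fml L c
  /-- existential quantification over the sort `s` -/
  | ex {c : List L.Srt} (s : L.Srt) (φ : MLang.Fml L (s :: c)) : MLang.Fml L c
  /-- universal quantification over the sort `s` -/
  | all {c : List L.Srt} (s : L.Srt) (φ : MLang.Fml L (s :: c)) : MLang.Fml L c

/-- A formula without quantifiers. -/
def MLang.Fml.QF {L : MLang} : {c : List L.Srt} → L.Fml c → Prop
  | _, .eq _ _ => True
  | _, .rel _ _ => True
  | _, .falsum => True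
  | _, .not φ => φ.QF
  | _, .and φ ψ => φ.QF ∧ ψ.QF
  | _, .or φ ψ => φ.QF ∧ ψ.QF
  | _, .ex _ _ => False
  | _, .all _ _ => False

/-- `InFragment n φ`: the formula `φ` is prenex, with a quantifier-free matrix and with `n`
alternating blocks of quantifiers, the last (innermost) of which is existential; blocks may be
empty. So the outermost block is existential if `n` is odd, and universal if `n` is even and
positive. -/
inductive MLang.InFragment (L : MLang) : (n : ℕ) → {c : List L.Srt} → L.Fml c → Prop
  /-- a quantifier-free matrix -/
  | matrix {c : List L.Srt} {φ : L.Fml c} (h : φ.QF) : MLang.InFragment L 0 φ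
  /-- start a new (so far empty) block on the outside -/
  | block {n : ℕ} {c : List L.Srt} {φ : L.Fml c} (h : MLang.InFragment L n φ) :
      MLang.InFragment L (n + 1) φ
  /-- if `n` is odd, the outermost block is existential and can be extended -/
  | ex {n : ℕ} {c : List L.Srt} {s : L.Srt} {φ : L.Fml (s :: c)} (hn : Odd n)
      (h : MLang.InFragment L n φ) : MLang.InFragment L n (.ex s φ)
  /-- if `n` is even and positive, the outermost block is universal and can be extended -/
  | all {n : ℕ} {c : List L.Srt} {s : L.Srt} {φ : L.Fml (s :: c)} (hn : Even n) (h0 : 0 < n)
      (h : MLang.InFragment L n φ) : MLang.InFragment L n (.all s φ)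

/-- A structure for a many-sorted language. -/
structure MLang.Str (L : MLang) where
  /-- the carriers -/
  M : L.Srt → Type
  /-- the interpretation of the function symbols -/
  fn : {as : List L.Srt} → {s : L.Srt} → L.Fn as s → (∀ i : Fin as.length, M (as.get i)) → M s
  /-- the interpretation of the relation symbols -/
  rl : {as : List L.Srt} → L.Rl as → (∀ i : Fin as.length, M (as.get i)) → Prop

/-- An assignment of values to the variables of the context `c`. -/
abbrev MLang.Str.Env {L : MLang} (A : L.Str) (c : List L.Srt) : Type :=
  ∀ i : Fin c.length, A.M (c.get i)

/-- The value of a term. -/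
def MLang.Term.eval {L : MLang} (A : L.Str) {c : List L.Srt} (e : A.Env c) :
    {s : L.Srt} → L.Term c s → A.M s
  | _, .var i => e i
  | _, .app f t => A.fn f fun i => (t i).eval A e

/-- Extension of an assignment by a value of a new variable with index `0`. -/
def MLang.Str.push {L : MLang} (A : L.Str) {c : List L.Srt} {s : L.Srt} (x : A.M s)
    (e : A.Env c) : A.Env (s :: c) :=
  fun i => Fin.cases (motive := fun i => A.M ((s :: c).get i)) x e i

/-- Truth of a formula under an assignment. -/
def MLang.Fml.Holds {L : MLang} (A : L.Str) : {c : List L.Srt} → L.Fml c → A.Env c → Prop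
  | _, .eq t u, e => t.eval A e = u.eval A e
  | _, .rel R t, e => A.rl R fun i => (t i).eval A e
  | _, .falsum, _ => False
  | _, .not φ, e => ¬ φ.Holds A e
  | _, .and φ ψ, e => φ.Holds A e ∧ ψ.Holds A e
  | _, .or φ ψ, e => φ.Holds A e ∨ ψ.Holds A e
  | _, .ex s φ, e => ∃ x : A.M s, φ.Holds A (A.push x e)
  | _, .all s φ, e => ∀ x : A.M s, φ.Holds A (A.push x e)

/-- Truth of a sentence. -/
def MLang.Str.Models {L : MLang} (A : L.Str) (φ : L.Fml []) : Prop :=
  φ.Holds A fun i => i.elim0

/-- The set of the sentences, true in `A`, of the standard fragment with `n` alternating blocks of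
quantifiers (the last one existential). -/
def MLang.Str.Th {L : MLang} (A : L.Str) (n : ℕ) : Set (L.Fml []) :=
  {φ | L.InFragment n φ ∧ A.Models φ}

/-- Interpretation of a constant symbol by an element. -/
def ap0 {S : Type} {M : S → Type} {s : S} (f : M s) :
    (∀ i : Fin ([] : List S).length, M (([] : List S).get i)) → M s :=
  fun _ => f

/-- Interpretation of a unary function symbol by a function. -/
def ap1 {S : Type} {M : S → Type} {a s : S} (f : M a → M s) :
    (∀ i : Fin [a].length, M ([a].get i)) → M s :=
  fun x => f (x 0)

/-- Interpretation of a binary function symbol by a function. -/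
def ap2 {S : Type} {M : S → Type} {a b s : S} (f : M a → M b → M s) :
    (∀ i : Fin [a, b].length, M ([a, b].get i)) → M s :=
  fun x => f (x 0) (x 1)

/-- Interpretation of a binary relation symbol by a relation. -/
def rel2 {S : Type} {M : S → Type} {a b : S} (r : M a → M b → Prop) :
    (∀ i : Fin [a, b].length, M ([a, b].get i)) → Prop :=
  fun x => r (x 0) (x 1)

/-! ### The languages of rings and of ordered abelian groups -/

/-- The function symbols of the language of rings. -/
inductive RingFn : List Unit → Unit → Type
  /-- zero -/
  | zero : RingFn [] ()
  /-- one -/
  | one : RingFn [] ()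
  /-- addition -/
  | add : RingFn [(), ()] ()
  /-- opposite -/
  | neg : RingFn [()] ()
  /-- multiplication -/
  | mul : RingFn [(), ()] ()

/-- The (one-sorted) language of rings. -/
def ringLang : MLang := ⟨Unit, RingFn, fun _ => Empty⟩

/-- A ring as a structure for the language of rings. -/
def ringStr (R : Type) [Ring R] : ringLang.Str where
  M := fun _ => R
  fn := fun {as s} f => RingFn.casesOn
    (motive := fun as s _ => (∀ i : Fin as.length, (fun _ : Unit => R) (as.get i)) →
      (fun _ : Unit => R) s) f
    -- zero
    (ap0 (M := fun _ : Unit => R) (s := ()) 0)
    -- one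
    (ap0 (M := fun _ : Unit => R) (s := ()) 1)
    -- addition
    (ap2 (M := fun _ : Unit => R) (a := ()) (b := ()) (s := ()) fun a b : R => a + b)
    -- opposite
    (ap1 (M := fun _ : Unit => R) (a := ()) (s := ()) fun a : R => -a)
    -- multiplication
    (ap2 (M := fun _ : Unit => R) (a := ()) (b := ()) (s := ()) fun a b : R => a * b)
  rl := fun r => Empty.elim r

/-- The function symbols of the language of ordered abelian groups. -/
inductive GroupFn : List Unit → Unit → Type
  /-- zero -/
  | zero : GroupFn [] ()
  /-- addition -/
  | add : GroupFn [(), ()] ()
  /-- opposite -/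
  | neg : GroupFn [()] ()

/-- The relation symbol of the language of ordered abelian groups. -/
inductive GroupRl : List Unit → Type
  /-- the strict order -/
  | lt : GroupRl [(), ()]

/-- The (one-sorted) language of ordered abelian groups. -/
def groupLang : MLang := ⟨Unit, GroupFn, GroupRl⟩

/-- An ordered abelian group as a structure for the language of ordered abelian groups. -/
def groupStr (G : Type) [AddCommGroup G] [LinearOrder G] : groupLang.Str where
  M := fun _ => G
  fn := fun {as s} f => GroupFn.casesOn
    (motive := fun as s _ => (∀ i : Fin as.length, (fun _ : Unit => G) (as.get i)) →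
      (fun _ : Unit => G) s) f
    -- zero
    (ap0 (M := fun _ : Unit => G) (s := ()) 0)
    -- addition
    (ap2 (M := fun _ : Unit => G) (a := ()) (b := ()) (s := ()) fun a b : G => a + b)
    -- opposite
    (ap1 (M := fun _ : Unit => G) (a := ()) (s := ()) fun a : G => -a)
  rl := fun {as} r => GroupRl.casesOn
    (motive := fun as _ => (∀ i : Fin as.length, (fun _ : Unit => G) (as.get i)) → Prop) r
    -- the strict order
    (rel2 (M := fun _ : Unit => G) (a := ()) (b := ()) fun a b : G => a < b)

/-- A `ℤ`-group: an ordered abelian group with the same first-order theory as the integers. -/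
def IsZGroup (G : Type) [AddCommGroup G] [LinearOrder G] : Prop :=
  ∀ φ : groupLang.Fml [], (groupStr G).Models φ ↔ (groupStr ℤ).Models φ

/-! ### Valued fields -/

/-- A valued field, with its field `K`, its residue field `k`, its value group `Γ`, the valuation
`v : K → Γ ∪ {∞}` (onto, written additively) and the residue map `res`, which on the valuation
ring is a ring homomorphism onto `k` whose kernel is the maximal ideal, and which is `0` outside
the valuation ring. -/
structure ValuedField where
  /-- the field -/
  K : Type
  /-- the residue field -/
  k : Type
  /-- the value group -/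
  Γ : Type
  [fieldK : Field K]
  [fieldk : Field k]
  [groupΓ : AddCommGroup Γ]
  [orderΓ : LinearOrder Γ]
  [orderedΓ : IsOrderedAddMonoid Γ]
  /-- the valuation -/
  v : K → WithTop Γ
  v_eq_top : ∀ x, v x = ⊤ ↔ x = 0
  v_mul : ∀ x y, v (x * y) = v x + v y
  v_add : ∀ x y, min (v x) (v y) ≤ v (x + y)
  v_surj : ∀ γ : Γ, ∃ x, v x = γ
  /-- the residue map -/
  res : K → k
  res_out : ∀ x, v x < 0 → res x = 0
  res_one : res 1 = 1
  res_add : ∀ x y, 0 ≤ v x → 0 ≤ v y → res (x + y) = res x + res y
  res_mul : ∀ x y, 0 ≤ v x → 0 ≤ v y → res (x * y) = res x * res y
  res_eq_zero : ∀ x, 0 ≤ v x → (res x = 0 ↔ 0 < v x)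
  res_surj : ∀ a, ∃ x, 0 ≤ v x ∧ res x = a

attribute [instance] ValuedField.fieldK ValuedField.fieldk ValuedField.groupΓ
  ValuedField.orderΓ ValuedField.orderedΓ

/-- The valued field is henselian: simple zeros in the residue field of monic polynomials over the
valuation ring lift. -/
def ValuedField.Henselian (F : ValuedField) : Prop :=
  ∀ f : Polynomial F.K, f.Monic → (∀ i, 0 ≤ F.v (f.coeff i)) → ∀ a : F.K, 0 ≤ F.v a →
    0 < F.v (f.eval a) → F.v (f.derivative.eval a) = 0 →
      ∃ b : F.K, f.eval b = 0 ∧ 0 < F.v (b - a)

/-- The valuation is not trivial. -/
def ValuedField.Nontrivial (F : ValuedField) : Prop := ∃ x : F.K, x ≠ 0 ∧ F.v x ≠ 0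

/-- The element `π` is a uniformizer: its value is the smallest positive one. -/
def ValuedField.Uniformizer (F : ValuedField) (π : F.K) : Prop :=
  π ≠ 0 ∧ 0 < F.v π ∧ ∀ x, 0 < F.v x → F.v π ≤ F.v x

/-- The field and the residue field have the same characteristic. -/
def ValuedField.Equicharacteristic (F : ValuedField) : Prop := ringChar F.K = ringChar F.k

/-- The three sorts of the language of valued fields. -/
inductive VSort
  /-- the field sort -/
  | field
  /-- the residue field sort -/
  | residue
  /-- the value group sort (with infinity) -/
  | value

/-- The function symbols of the language of valued fields with a constant for a uniformizer. -/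
inductive ValFn : List VSort → VSort → Type
  /-- zero of the field sort -/
  | fzero : ValFn [] .field
  /-- one of the field sort -/
  | fone : ValFn [] .field
  /-- addition of the field sort -/
  | fadd : ValFn [.field, .field] .field
  /-- opposite in the field sort -/
  | fneg : ValFn [.field] .field
  /-- multiplication of the field sort -/
  | fmul : ValFn [.field, .field] .field
  /-- zero of the residue field sort -/
  | rzero : ValFn [] .residue
  /-- one of the residue field sort -/
  | rone : ValFn [] .residue
  /-- addition of the residue field sort -/
  | radd : ValFn [.residue, .residue] .residue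
  /-- opposite in the residue field sort -/
  | rneg : ValFn [.residue] .residue
  /-- multiplication of the residue field sort -/
  | rmul : ValFn [.residue, .residue] .residue
  /-- zero of the value group sort -/
  | vzero : ValFn [] .value
  /-- infinity -/
  | vinf : ValFn [] .value
  /-- addition of the value group sort -/
  | vadd : ValFn [.value, .value] .value
  /-- opposite in the value group sort -/
  | vneg : ValFn [.value] .value
  /-- the valuation map -/
  | val : ValFn [.field] .value
  /-- the residue map -/
  | resmap : ValFn [.field] .residue
  /-- the constant for the uniformizer -/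
  | unif : ValFn [] .field

/-- The relation symbol of the language of valued fields. -/
inductive ValRl : List VSort → Type
  /-- the strict order of the value group sort -/
  | lt : ValRl [.value, .value]

/-- The three-sorted language of valued fields with a constant of the field sort for a
uniformizer. -/
def valLang : MLang := ⟨VSort, ValFn, ValRl⟩

/-- The carriers of the sorts: the field, the residue field, and the value group with infinity. -/
def ValuedField.Carrier (F : ValuedField) : VSort → Type
  | .field => F.K
  | .residue => F.k
  | .value => WithTop F.Γ

/-- The opposite on the value group with infinity; infinity is its own opposite. -/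
def ValuedField.negTop (F : ValuedField) (x : WithTop F.Γ) : WithTop F.Γ := x.map fun y => -y

/-- Addition of the field. -/
def ValuedField.fieldAdd (F : ValuedField) (a b : F.K) : F.K := a + b

/-- Opposite in the field. -/
def ValuedField.fieldNeg (F : ValuedField) (a : F.K) : F.K := -a

/-- Multiplication of the field. -/
def ValuedField.fieldMul (F : ValuedField) (a b : F.K) : F.K := a * b

/-- Addition of the residue field. -/
def ValuedField.resAdd (F : ValuedField) (a b : F.k) : F.k := a + b

/-- Opposite in the residue field. -/
def ValuedField.resNeg (F : ValuedField) (a : F.k) : F.k := -a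

/-- Multiplication of the residue field. -/
def ValuedField.resMul (F : ValuedField) (a b : F.k) : F.k := a * b

/-- Addition of the value group with infinity. -/
def ValuedField.valAdd (F : ValuedField) (a b : WithTop F.Γ) : WithTop F.Γ := a + b

/-- The strict order of the value group with infinity. -/
def ValuedField.valLt (F : ValuedField) (a b : WithTop F.Γ) : Prop := a < b

/-- The interpretation of the function symbols in a valued field `F` with a distinguished
element `π`. -/
def ValuedField.interp (F : ValuedField) (π : F.K) {as : List VSort} {s : VSort}
    (f : ValFn as s) : (∀ i : Fin as.length, F.Carrier (as.get i)) → F.Carrier s :=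
  ValFn.casesOn
    (motive := fun as s _ => (∀ i : Fin as.length, F.Carrier (as.get i)) → F.Carrier s) f
    -- fzero, fone, fadd, fneg, fmul
    (ap0 (s := VSort.field) (0 : F.K))
    (ap0 (s := VSort.field) (1 : F.K))
    (ap2 (a := VSort.field) (b := VSort.field) (s := VSort.field) F.fieldAdd)
    (ap1 (a := VSort.field) (s := VSort.field) F.fieldNeg)
    (ap2 (a := VSort.field) (b := VSort.field) (s := VSort.field) F.fieldMul)
    -- rzero, rone, radd, rneg, rmul
    (ap0 (s := VSort.residue) (0 : F.k))
    (ap0 (s := VSort.residue) (1 : F.k))
    (ap2 (a := VSort.residue) (b := VSort.residue) (s := VSort.residue) F.resAdd)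
    (ap1 (a := VSort.residue) (s := VSort.residue) F.resNeg)
    (ap2 (a := VSort.residue) (b := VSort.residue) (s := VSort.residue) F.resMul)
    -- vzero, vinf, vadd, vneg
    (ap0 (s := VSort.value) (0 : WithTop F.Γ))
    (ap0 (s := VSort.value) (⊤ : WithTop F.Γ))
    (ap2 (a := VSort.value) (b := VSort.value) (s := VSort.value) F.valAdd)
    (ap1 (a := VSort.value) (s := VSort.value) F.negTop)
    -- val, resmap, unif
    (ap1 (a := VSort.field) (s := VSort.value) F.v)
    (ap1 (a := VSort.field) (s := VSort.residue) F.res)
    (ap0 (s := VSort.field) π)

/-- The three-sorted structure `(K, v, π)` given by a valued field and an element `π`. -/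
def ValuedField.str (F : ValuedField) (π : F.K) : valLang.Str where
  M := F.Carrier
  fn := fun f => F.interp π f
  rl := fun {as} r => ValRl.casesOn
    (motive := fun as _ => (∀ i : Fin as.length, F.Carrier (as.get i)) → Prop) r
    -- the strict order of the value group sort
    (rel2 (a := VSort.value) (b := VSort.value) F.valLt)

end Pool.Agent.X223.FR
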