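import Pool.Agent.X223.FR.Build

/-!
The iterated Laurent series field over the complex numbers with its valuation of rank two.
-/

set_option autoImplicit false

namespace Pool.Agent.X223.FR

open Polynomial

open ValuedField

/-- The complex numbers with the trivial valuation. -/
noncomputable def trivC : ValuedField := by
  classical
  exact
  { K := ℂ
    k := ℂ
    Γ := PUnit
    v := fun x => if x = 0 then ⊤ else 0
    v_eq_top := by
      intro x
      split_ifs with h
      · simp [h]
      · simp [h]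
    v_mul := by
      intro x y
      by_cases hx : x = 0
      · simp [hx]
      · by_cases hy : y = 0
        · simp [hy]
        · simp [hx, hy]
    v_add := by
      intro x y
      by_cases hxy : x + y = 0
      · rw [if_pos hxy]
        exact le_top
      · by_cases hx : x = 0
        · subst hx
          rw [zero_add] at hxy ⊢
          exact min_le_right _ _
        · rw [if_neg hxy, if_neg hx]
          exact min_le_left _ _
    v_surj := by
      intro γ
      refine ⟨1, ?_⟩
      rw [if_neg one_ne_zero]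
      rfl
    res := id
    res_out := by
      intro x hx
      split_ifs at hx with h
      · exact h
      · exact absurd hx (lt_irrefl _)
    res_one := rfl
    res_add := fun _ _ _ _ => rfl
    res_mul := fun _ _ _ _ => rfl
    res_eq_zero := by
      intro x _
      rw [id]
      split_ifs with h
      · simp only [h, true_iff]
        exact WithTop.coe_lt_top 0
      · simp [h]
    res_surj := by
      intro a
      refine ⟨a, ?_, rfl⟩
      split_ifs
      · exact le_top
      · exact le_rfl }

theorem trivC_v (x : ℂ) : 0 < trivC.v x ↔ x = 0 := by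
  classical
  change (0 : WithTop PUnit) < (if x = 0 then (⊤ : WithTop PUnit) else 0) ↔ x = 0
  split_ifs with h
  · simp only [h, iff_true]
    exact WithTop.coe_lt_top 0
  · simp [h]

theorem trivC_v' (x : ℂ) : 0 ≤ trivC.v x := by
  classical
  change (0 : WithTop PUnit) ≤ (if x = 0 then (⊤ : WithTop PUnit) else 0)
  split_ifs with h
  · exact le_top
  · exact le_rfl

theorem trivC_hens : trivC.Henselian := by
  intro f _ _ a _ h _
  refine ⟨a, (trivC_v _).1 h, ?_⟩
  rw [sub_self]
  exact (trivC_v _).2 rfl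

/-- The order of Laurent series. -/
noncomputable def v1 (x : HahnSeries ℤ trivC.K) : WithTop ℤ := x.orderTop

theorem D1 : trivC.Data v1 where
  top := fun x => HahnSeries.orderTop_eq_top
  mul := fun x y => HahnSeries.orderTop_mul x y
  nonneg := by
    intro x
    unfold v1
    constructor
    · intro h
      refine ⟨fun n hn => ?_, trivC_v' _⟩
      exact HahnSeries.coeff_eq_zero_of_lt_orderTop (lt_of_lt_of_le (WithTop.coe_lt_coe.2 hn) h)
    · rintro ⟨h, -⟩
      by_cases hx : x = 0
      · rw [hx, HahnSeries.orderTop_zero]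
        exact le_top
      · rw [← HahnSeries.order_eq_orderTop_of_ne_zero hx]
        refine WithTop.coe_le_coe.2 ?_
        by_contra h0
        exact hx (HahnSeries.coeff_order_eq_zero.1 (h _ (not_le.1 h0)))
  pos := by
    intro x
    unfold v1
    rw [show (0 < trivC.v (x.coeff 0) ↔ x.coeff 0 = 0) from trivC_v _]
    constructor
    · intro h
      refine ⟨fun n hn => ?_, ?_⟩
      · exact HahnSeries.coeff_eq_zero_of_lt_orderTop (lt_trans (WithTop.coe_lt_coe.2 hn) h)
      · exact HahnSeries.coeff_eq_zero_of_lt_orderTop h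
    · rintro ⟨h, h'⟩
      by_cases hx : x = 0
      · rw [hx, HahnSeries.orderTop_zero]
        exact WithTop.coe_lt_top _
      · rw [← HahnSeries.order_eq_orderTop_of_ne_zero hx]
        refine WithTop.coe_lt_coe.2 ?_
        by_contra h0
        rcases (not_lt.1 h0).lt_or_eq with h1 | h1
        · exact hx (HahnSeries.coeff_order_eq_zero.1 (h _ h1))
        · rw [← h1] at h'
          exact hx (HahnSeries.coeff_order_eq_zero.1 h')
  surj := by
    intro γ
    refine ⟨HahnSeries.single γ (1 : ℂ), ?_⟩
    exact HahnSeries.orderTop_single (one_ne_zero (α := ℂ))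

/-- Laurent series over the complex numbers. -/
noncomputable def LC : ValuedField := D1.toValuedField

theorem LC_hens : LC.Henselian := D1.henselian trivC_hens

section comp

variable (F : ValuedField)

/-- The composite of the order of Laurent series and of the valuation of the coefficients. -/
noncomputable def v2 (x : HahnSeries ℤ F.K) : WithTop (ℤ ×ₗ F.Γ) :=
  (F.v x.leadingCoeff).map fun γ => toLex (x.order, γ)

theorem v2_zero : v2 F 0 = ⊤ := by
  unfold v2
  rw [HahnSeries.leadingCoeff_zero, F.v_zero', WithTop.map_top]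

theorem v2_of {x : HahnSeries ℤ F.K} {γ : F.Γ} (h : F.v x.leadingCoeff = γ) :
    v2 F x = ((toLex (x.order, γ) : ℤ ×ₗ F.Γ) : WithTop (ℤ ×ₗ F.Γ)) := by
  unfold v2
  rw [h]
  rfl

theorem D2 : F.Data (v2 F) where
  top := by
    intro x
    unfold v2
    rw [WithTop.map_eq_top_iff, F.v_eq_top, HahnSeries.leadingCoeff_eq_zero]
  mul := by
    intro x y
    by_cases hx : x = 0
    · subst hx
      rw [zero_mul, v2_zero, top_add]
    by_cases hy : y = 0
    · subst hy
      rw [mul_zero, v2_zero, add_top]
    obtain ⟨γ, hγ⟩ := F.exists_coe (HahnSeries.leadingCoeff_ne_zero.2 hx)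
    obtain ⟨δ, hδ⟩ := F.exists_coe (HahnSeries.leadingCoeff_ne_zero.2 hy)
    have h : F.v (x * y).leadingCoeff = ((γ + δ : F.Γ) : WithTop F.Γ) := by
      rw [HahnSeries.leadingCoeff_mul, F.v_mul, hγ, hδ]
      rfl
    rw [v2_of F h, v2_of F hγ, v2_of F hδ, HahnSeries.order_mul hx hy, ← WithTop.coe_add]
    rfl
  nonneg := by
    intro x
    by_cases hx : x = 0
    · subst hx
      rw [v2_zero]
      simp only [le_top, HahnSeries.coeff_zero, F.v_zero', implies_true, and_self]
    obtain ⟨γ, hγ⟩ := F.exists_coe (HahnSeries.leadingCoeff_ne_zero.2 hx)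
    rw [v2_of F hγ]
    rw [HahnSeries.leadingCoeff_eq] at hγ
    change ((0 : ℤ ×ₗ F.Γ) : WithTop (ℤ ×ₗ F.Γ)) ≤ _ ↔ _
    rw [WithTop.coe_le_coe, Prod.Lex.le_iff]
    change (0 < x.order ∨ 0 = x.order ∧ 0 ≤ γ) ↔ _
    constructor
    · rintro (h | ⟨h1, h2⟩)
      · refine ⟨fun n hn => HahnSeries.coeff_eq_zero_of_lt_order (hn.trans h), ?_⟩
        rw [HahnSeries.coeff_eq_zero_of_lt_order h, F.v_zero']
        exact le_top
      · refine ⟨fun n hn => HahnSeries.coeff_eq_zero_of_lt_order (h1 ▸ hn), ?_⟩
        rw [h1, hγ]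
        exact WithTop.coe_le_coe.2 h2
    · rintro ⟨h1, h2⟩
      have h3 : 0 ≤ x.order := by
        by_contra h
        exact hx (HahnSeries.coeff_order_eq_zero.1 (h1 _ (not_le.1 h)))
      rcases h3.lt_or_eq with h | h
      · exact Or.inl h
      · refine Or.inr ⟨h, ?_⟩
        rw [h, hγ] at h2
        exact WithTop.coe_le_coe.1 h2
  pos := by
    intro x
    by_cases hx : x = 0
    · subst hx
      rw [v2_zero]
      simp only [HahnSeries.coeff_zero, F.v_zero', implies_true, true_and]
      exact ⟨fun _ => WithTop.coe_lt_top 0, fun _ => WithTop.coe_lt_top 0⟩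
    obtain ⟨γ, hγ⟩ := F.exists_coe (HahnSeries.leadingCoeff_ne_zero.2 hx)
    rw [v2_of F hγ]
    rw [HahnSeries.leadingCoeff_eq] at hγ
    change ((0 : ℤ ×ₗ F.Γ) : WithTop (ℤ ×ₗ F.Γ)) < _ ↔ _
    rw [WithTop.coe_lt_coe, Prod.Lex.lt_iff]
    change (0 < x.order ∨ 0 = x.order ∧ 0 < γ) ↔ _
    constructor
    · rintro (h | ⟨h1, h2⟩)
      · refine ⟨fun n hn => HahnSeries.coeff_eq_zero_of_lt_order (hn.trans h), ?_⟩
        rw [HahnSeries.coeff_eq_zero_of_lt_order h, F.v_zero']
        exact WithTop.coe_lt_top 0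
      · refine ⟨fun n hn => HahnSeries.coeff_eq_zero_of_lt_order (h1 ▸ hn), ?_⟩
        rw [h1, hγ]
        exact WithTop.coe_lt_coe.2 h2
    · rintro ⟨h1, h2⟩
      have h3 : 0 ≤ x.order := by
        by_contra h
        exact hx (HahnSeries.coeff_order_eq_zero.1 (h1 _ (not_le.1 h)))
      rcases h3.lt_or_eq with h | h
      · exact Or.inl h
      · refine Or.inr ⟨h, ?_⟩
        rw [h, hγ] at h2
        exact WithTop.coe_lt_coe.1 h2
  surj := by
    intro γ
    obtain ⟨c, hc⟩ := F.v_surj (ofLex γ).2
    have hc0 : c ≠ 0 := by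
      rintro rfl
      rw [F.v_zero'] at hc
      exact WithTop.top_ne_coe hc
    refine ⟨HahnSeries.single (ofLex γ).1 c, ?_⟩
    rw [v2_of F (γ := (ofLex γ).2) (by
      rw [HahnSeries.leadingCoeff_of_single]
      exact hc), HahnSeries.order_single hc0]
    rfl

end comp

/-- Iterated Laurent series over the complex numbers, with the valuation of rank two. -/
noncomputable def KC : ValuedField := (D2 LC).toValuedField

theorem KC_hens : KC.Henselian := (D2 LC).henselian LC_hens

/-- The uniformizer of the field of Laurent series. -/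
noncomputable def piL : LC.K := (HahnSeries.single 1 (1 : ℂ) : HahnSeries ℤ ℂ)

theorem v_piL : LC.v piL = ((1 : ℤ) : WithTop ℤ) :=
  HahnSeries.orderTop_single (one_ne_zero (α := ℂ))

/-- The uniformizer of the field of iterated Laurent series. -/
noncomputable def piK : KC.K := (HahnSeries.single 0 piL : HahnSeries ℤ LC.K)

theorem piL_ne : piL ≠ 0 := by
  intro h
  have := v_piL
  rw [h, LC.v_zero'] at this
  exact WithTop.top_ne_coe this

theorem v_piK : KC.v piK = ((toLex ((0 : ℤ), (1 : ℤ)) : ℤ ×ₗ ℤ) : WithTop (ℤ ×ₗ ℤ)) := by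
  change v2 LC (HahnSeries.single 0 piL) = _
  rw [v2_of LC (γ := (1 : ℤ)) (by
    rw [HahnSeries.leadingCoeff_of_single]
    exact v_piL), HahnSeries.order_single piL_ne]
  rfl

theorem piK_ne : piK ≠ 0 := by
  intro h
  have := v_piK
  rw [h, KC.v_zero'] at this
  exact WithTop.top_ne_coe this

theorem LC_unif : LC.Uniformizer piL := by
  refine ⟨piL_ne, ?_, fun x hx => ?_⟩
  · rw [v_piL]
    exact WithTop.coe_lt_coe.2 (zero_lt_one (α := ℤ))
  · rw [v_piL]
    revert hx
    generalize LC.v x = y
    intro hy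
    have key : ∀ y : WithTop ℤ, 0 < y → ((1 : ℤ) : WithTop ℤ) ≤ y := by
      intro y hy
      induction y using WithTop.recTopCoe with
      | top => exact le_top
      | coe y =>
        exact WithTop.coe_le_coe.2 (Int.add_one_le_iff.2 (WithTop.coe_lt_coe.1 hy : (0 : ℤ) < y))
    exact key y hy

theorem KC_unif : KC.Uniformizer piK := by
  have key : ∀ y : WithTop (ℤ ×ₗ ℤ), 0 < y →
      ((toLex ((0 : ℤ), (1 : ℤ)) : ℤ ×ₗ ℤ) : WithTop (ℤ ×ₗ ℤ)) ≤ y := by
    intro y hy
    induction y using WithTop.recTopCoe with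
    | top => exact le_top
    | coe y =>
      have h : (0 : ℤ ×ₗ ℤ) < y := WithTop.coe_lt_coe.1 hy
      refine WithTop.coe_le_coe.2 ?_
      rw [Prod.Lex.lt_iff] at h
      rw [Prod.Lex.le_iff]
      rcases h with h | ⟨h1, h2⟩
      · exact Or.inl h
      · exact Or.inr ⟨h1, Int.add_one_le_iff.2 h2⟩
  have key' : (0 : WithTop (ℤ ×ₗ ℤ)) <
      ((toLex ((0 : ℤ), (1 : ℤ)) : ℤ ×ₗ ℤ) : WithTop (ℤ ×ₗ ℤ)) := by
    refine WithTop.coe_lt_coe.2 ?_
    rw [Prod.Lex.lt_iff]
    exact Or.inr ⟨rfl, zero_lt_one (α := ℤ)⟩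
  refine ⟨piK_ne, ?_, fun x hx => ?_⟩
  · rw [v_piK]
    exact key'
  · rw [v_piK]
    exact key _ hx

theorem LC_char : CharZero LC.k := (inferInstance : CharZero ℂ)

theorem LC_equi : LC.Equicharacteristic := by
  have h1 : CharZero (HahnSeries ℤ ℂ) :=
    ((HahnSeries.C : ℂ →+* HahnSeries ℤ ℂ).charZero_iff HahnSeries.C_injective).1 inferInstance
  have h2 : CharZero ℂ := inferInstance
  have h3 : ringChar (HahnSeries ℤ ℂ) = 0 := ringChar.eq_zero
  have h4 : ringChar ℂ = 0 := ringChar.eq_zero
  exact h3.trans h4.symm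

theorem KC_equi : KC.Equicharacteristic := by
  have h1 : CharZero (HahnSeries ℤ ℂ) :=
    ((HahnSeries.C : ℂ →+* HahnSeries ℤ ℂ).charZero_iff HahnSeries.C_injective).1 inferInstance
  have h1' : CharZero (HahnSeries ℤ (HahnSeries ℤ ℂ)) :=
    ((HahnSeries.C : HahnSeries ℤ ℂ →+* HahnSeries ℤ (HahnSeries ℤ ℂ)).charZero_iff
      HahnSeries.C_injective).1 h1
  have h2 : CharZero ℂ := inferInstance
  have h3 : ringChar (HahnSeries ℤ (HahnSeries ℤ ℂ)) = 0 := ringChar.eq_zero
  have h4 : ringChar ℂ = 0 := ringChar.eq_zero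
  exact h3.trans h4.symm

theorem LC_nontriv : LC.Nontrivial := by
  refine ⟨piL, piL_ne, ?_⟩
  rw [v_piL]
  intro h
  have h' : (1 : ℤ) = 0 := WithTop.coe_injective h
  exact absurd h' (by norm_num)

theorem KC_nontriv : KC.Nontrivial := ⟨piK, piK_ne, KC_unif.2.1.ne'⟩

theorem LC_zgroup : IsZGroup LC.Γ := fun _ => Iff.rfl

/-! ### The sentence -/

/-- Two terms as the arguments of a binary function symbol. -/
def two {L : MLang} {c : List L.Srt} {a b : L.Srt} (t : L.Term c a) (u : L.Term c b) :
    ∀ i : Fin [a, b].length, L.Term c ([a, b].get i) :=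
  fun i => Fin.cases (motive := fun i => L.Term c ([a, b].get i)) t
    (fun j => Fin.cases (motive := fun j => L.Term c ([b].get j)) u (fun k => k.elim0) j) i

/-- One term as the argument of a unary function symbol. -/
def oneT {L : MLang} {c : List L.Srt} {a : L.Srt} (t : L.Term c a) :
    ∀ i : Fin [a].length, L.Term c ([a].get i) :=
  fun i => Fin.cases (motive := fun i => L.Term c ([a].get i)) t (fun k => k.elim0) i

/-- The terms of the sentence: the variable `y`. -/
def tY : valLang.Term [VSort.value, VSort.value] VSort.value :=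
  MLang.Term.var (L := valLang) (c := [VSort.value, VSort.value]) 0

/-- The variable `x`. -/
def tX : valLang.Term [VSort.value, VSort.value] VSort.value :=
  MLang.Term.var (L := valLang) (c := [VSort.value, VSort.value]) 1

/-- The term `y + y`. -/
def tYY : valLang.Term [VSort.value, VSort.value] VSort.value :=
  .app (L := valLang) ValFn.vadd (two tY tY)

/-- Infinity. -/
def tInf : valLang.Term [VSort.value, VSort.value] VSort.value :=
  .app (L := valLang) ValFn.vinf fun i => i.elim0

/-- The value of the uniformizer. -/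
def tPi : valLang.Term [VSort.value, VSort.value] VSort.value :=
  .app (L := valLang) ValFn.val (oneT (.app (L := valLang) ValFn.unif fun i => i.elim0))

/-- The matrix: `x` is not infinity, not `y + y` and not `y + y + v(ϖ)`. -/
def mat : valLang.Fml [VSort.value, VSort.value] :=
  .and (.not (.eq tX tInf)) (.and (.not (.eq tX tYY))
    (.not (.eq tX (.app (L := valLang) ValFn.vadd (two tYY tPi)))))

/-- There is a finite `x` in the value group such that for all `y`, `x` is neither `y + y` nor
`y + y + v(ϖ)`. -/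
def sen : valLang.Fml [] := .ex (L := valLang) VSort.value (.all (L := valLang) VSort.value mat)

theorem sen_frag (n : ℕ) (hn : 3 ≤ n) : valLang.InFragment n sen := by
  induction n, hn using Nat.le_induction with
  | base =>
    refine .ex (by decide) (.block (.all (by decide) (by decide) (.block (.block (.matrix ?_)))))
    exact ⟨trivial, trivial, trivial⟩
  | succ n _ ih => exact .block ih

theorem models_sen (F : ValuedField) (π : F.K) : (F.str π).Models sen ↔
    ∃ x : WithTop F.Γ, ∀ y : WithTop F.Γ, ¬ x = ⊤ ∧ ¬ x = y + y ∧ ¬ x = y + y + F.v π :=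
  Iff.rfl

theorem KC_sen : (KC.str piK).Models sen := by
  rw [models_sen, v_piK]
  have key : ∃ x : WithTop (ℤ ×ₗ ℤ), ∀ y : WithTop (ℤ ×ₗ ℤ), ¬ x = ⊤ ∧ ¬ x = y + y ∧
      ¬ x = y + y + ((toLex ((0 : ℤ), (1 : ℤ)) : ℤ ×ₗ ℤ) : WithTop (ℤ ×ₗ ℤ)) := by
    refine ⟨((toLex ((1 : ℤ), (0 : ℤ)) : ℤ ×ₗ ℤ) : WithTop (ℤ ×ₗ ℤ)), fun y => ?_⟩
    refine ⟨WithTop.coe_ne_top, ?_, ?_⟩
    · induction y using WithTop.recTopCoe with
      | top => exact WithTop.coe_ne_top
      | coe y =>
        intro h
        rw [← WithTop.coe_add, WithTop.coe_inj] at h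
        have h1 : (1 : ℤ) = (ofLex y).1 + (ofLex y).1 := congrArg (fun z => (ofLex z).1) h
        omega
    · induction y using WithTop.recTopCoe with
      | top => exact WithTop.coe_ne_top
      | coe y =>
        intro h
        rw [← WithTop.coe_add, ← WithTop.coe_add, WithTop.coe_inj] at h
        have h1 : (1 : ℤ) = (ofLex y).1 + (ofLex y).1 + 0 := congrArg (fun z => (ofLex z).1) h
        omega
  exact key

theorem LC_sen : ¬ (LC.str piL).Models sen := by
  rw [models_sen, v_piL]
  have key : ¬ ∃ x : WithTop ℤ, ∀ y : WithTop ℤ, ¬ x = ⊤ ∧ ¬ x = y + y ∧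
      ¬ x = y + y + ((1 : ℤ) : WithTop ℤ) := by
    rintro ⟨x, hx⟩
    induction x using WithTop.recTopCoe with
    | top => exact (hx ⊤).1 rfl
    | coe x =>
      rcases Int.even_or_odd' x with ⟨y, rfl | rfl⟩
      · refine (hx y).2.1 ?_
        rw [two_mul, WithTop.coe_add]
      · refine (hx y).2.2 ?_
        rw [two_mul, WithTop.coe_add, WithTop.coe_add]
  exact key

end Pool.Agent.X223.FR
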